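import Mathlib

/-!
# The maximum divergence from the restricted Boltzmann machine with 3 visible and 1 hidden unit

The value is `(3/4) log (1 + 2/√3)`, attained at the uniform distribution on the strings of even
parity.
-/

set_option autoImplicit false

namespace Pool.Agent.Results.MP_dd6cbd_pr.ExactValue

open Real

/-- the real number `1` for `true` and `0` for `false` -/
def bit (x : Bool) : ℝ := if x then 1 else 0

/-- the unnormalised probability of the visible state `v` -/
noncomputable def weight {n m : ℕ} (W : Fin m → Fin n → ℝ) (b : Fin n → ℝ) (c : Fin m → ℝ)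
    (v : Fin n → Bool) : ℝ :=
  ∑ h : Fin m → Bool, exp (∑ j, ∑ i, bit (h j) * W j i * bit (v i) + ∑ i, b i * bit (v i)
    + ∑ j, c j * bit (h j))

/-- the restricted Boltzmann machine model with `n` visible and `m` hidden binary units -/
def rbm (n m : ℕ) : Set ((Fin n → Bool) → ℝ) :=
  {q | ∃ (W : Fin m → Fin n → ℝ) (b : Fin n → ℝ) (c : Fin m → ℝ),
    ∀ v, q v = weight W b c v / ∑ u, weight W b c u}

/-- the Kullback-Leibler divergence -/
noncomputable def kl {n : ℕ} (p q : (Fin n → Bool) → ℝ) : ℝ := ∑ v, p v * log (p v / q v)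

/-- the maximum divergence from the model -/
noncomputable def maxDiv (n m : ℕ) : ℝ :=
  sSup {d | ∃ p ∈ stdSimplex ℝ (Fin n → Bool), d = sInf {t | ∃ q ∈ rbm n m, t = kl p q}}

/-! ### The model as a set of mixtures -/

noncomputable def pr {n : ℕ} (x : Fin n → ℝ) (v : Fin n → Bool) : ℝ :=
  ∏ i, (if v i then x i else 1)

noncomputable def mix {n : ℕ} (α β : ℝ) (x y : Fin n → ℝ) (v : Fin n → Bool) : ℝ :=
  α * pr x v + β * pr y v

theorem pr_pos {n : ℕ} (x : Fin n → ℝ) (hx : ∀ i, 0 < x i) (v : Fin n → Bool) : 0 < pr x v := by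
  unfold pr
  apply Finset.prod_pos
  intro i _
  split_ifs
  · exact hx i
  · norm_num

theorem exp_pr {n : ℕ} (b : Fin n → ℝ) (v : Fin n → Bool) :
    exp (∑ i, b i * bit (v i)) = pr (fun i => exp (b i)) v := by
  unfold pr bit
  rw [exp_sum]
  apply Finset.prod_congr rfl
  intro i _
  split_ifs <;> simp

theorem weight_one {n : ℕ} (W : Fin 1 → Fin n → ℝ) (b : Fin n → ℝ) (c : Fin 1 → ℝ)
    (v : Fin n → Bool) : weight W b c v =
      mix 1 (exp (c 0)) (fun i => exp (b i)) (fun i => exp (W 0 i + b i)) v := by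
  unfold weight mix
  rw [← (Equiv.funUnique (Fin 1) Bool).symm.sum_comp, Fintype.sum_bool]
  rw [← exp_pr, ← exp_pr, ← exp_add, one_mul, add_comm]
  congr 1
  · simp [bit]
  · simp only [Finset.univ_unique, Fin.default_eq_zero, Fin.isValue, Equiv.funUnique_symm_apply,
      uniqueElim_const, Finset.sum_singleton, bit, if_true, one_mul, mul_one]
    congr 1
    rw [add_comm _ (c 0), ← Finset.sum_add_distrib]
    congr 1
    apply Finset.sum_congr rfl
    intro i _
    ring

theorem mix_pos {n : ℕ} (α β : ℝ) (x y : Fin n → ℝ) (hα : 0 < α) (hβ : 0 < β)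
    (hx : ∀ i, 0 < x i) (hy : ∀ i, 0 < y i) (v : Fin n → Bool) : 0 < mix α β x y v :=
  add_pos (mul_pos hα (pr_pos x hx v)) (mul_pos hβ (pr_pos y hy v))

theorem mix_scale {n : ℕ} (k α β : ℝ) (x y : Fin n → ℝ) (v : Fin n → Bool) :
    mix (k * α) (k * β) x y v = k * mix α β x y v := by
  unfold mix; ring

/-- a normalised mixture of two positive product measures lies in the model -/
theorem rbm_norm {n : ℕ} (α β : ℝ) (x y : Fin n → ℝ) (hα : 0 < α) (hβ : 0 < β)
    (hx : ∀ i, 0 < x i) (hy : ∀ i, 0 < y i) :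
    (fun v => mix α β x y v / ∑ u, mix α β x y u) ∈ rbm n 1 := by
  refine ⟨fun _ i => log (y i) - log (x i), fun i => log (x i), fun _ => log (β / α), ?_⟩
  have hw : ∀ v, weight (fun (_ : Fin 1) i => log (y i) - log (x i)) (fun i => log (x i))
      (fun _ => log (β / α)) v = α⁻¹ * mix α β x y v := by
    intro v
    rw [weight_one, ← mix_scale]
    have e1 : (fun i => exp (log (x i))) = x := funext fun i => exp_log (hx i)
    have e2 : (fun i => exp (log (y i) - log (x i) + log (x i))) = y := by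
      funext i
      rw [sub_add_cancel, exp_log (hy i)]
    rw [e1, e2, exp_log (div_pos hβ hα), inv_mul_cancel₀ hα.ne', div_eq_inv_mul]
  intro v
  simp only [hw]
  rw [← Finset.mul_sum, mul_div_mul_left _ _ (inv_ne_zero hα.ne')]

/-- every member of the model is a mixture of two positive product measures, of total mass one -/
theorem mix_of_rbm {n : ℕ} (q : (Fin n → Bool) → ℝ) (hq : q ∈ rbm n 1) :
    ∃ (α β : ℝ) (x y : Fin n → ℝ), 0 < α ∧ 0 < β ∧ (∀ i, 0 < x i) ∧ (∀ i, 0 < y i) ∧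
      (∀ v, q v = mix α β x y v) ∧ ∑ v, q v = 1 := by
  obtain ⟨W, b, c, h⟩ := hq
  set Z := ∑ u, weight W b c u with hZ
  have hpos : ∀ v, 0 < weight W b c v := by
    intro v
    rw [weight_one]
    exact mix_pos _ _ _ _ one_pos (exp_pos _) (fun i => exp_pos _) (fun i => exp_pos _) v
  have hZpos : 0 < Z := Finset.sum_pos (fun v _ => hpos v) Finset.univ_nonempty
  refine ⟨Z⁻¹ * 1, Z⁻¹ * exp (c 0), fun i => exp (b i), fun i => exp (W 0 i + b i),
    by positivity, by positivity, fun i => exp_pos _, fun i => exp_pos _, ?_, ?_⟩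
  · intro v
    rw [mix_scale, h v, weight_one, div_eq_inv_mul]
  · simp only [h]
    rw [← Finset.sum_div, div_self hZpos.ne']

/-! ### Eight states -/

def e3 : (Bool × Bool × Bool) ≃ (Fin 3 → Bool) where
  toFun t := ![t.1, t.2.1, t.2.2]
  invFun v := (v 0, v 1, v 2)
  left_inv t := by simp
  right_inv v := by funext i; fin_cases i <;> rfl

theorem sum8 (f : (Fin 3 → Bool) → ℝ) : ∑ v, f v =
    f ![false, false, false] + f ![true, false, false] + f ![false, true, false]
    + f ![false, false, true] + f ![false, true, true] + f ![true, false, true]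
    + f ![true, true, false] + f ![true, true, true] := by
  rw [← e3.sum_comp, Fintype.sum_prod_type]
  simp only [Fintype.sum_prod_type, Fintype.sum_bool, e3, Equiv.coe_fn_mk]
  ring

theorem forall8 (P : (Fin 3 → Bool) → Prop) (h0 : P ![false, false, false])
    (h1 : P ![true, false, false]) (h2 : P ![false, true, false]) (h3 : P ![false, false, true])
    (h4 : P ![false, true, true]) (h5 : P ![true, false, true]) (h6 : P ![true, true, false])
    (h7 : P ![true, true, true]) : ∀ v, P v := by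
  intro v
  have hv : v = ![v 0, v 1, v 2] := by funext i; fin_cases i <;> rfl
  rw [hv]
  cases v 0 <;> cases v 1 <;> cases v 2 <;> assumption

/-! ### The lower bound -/

/-- the constant `2√3 - 3` -/
noncomputable def lam : ℝ := 2 * √3 - 3

theorem sqrt3_sq : √3 * √3 = 3 := Real.mul_self_sqrt (by norm_num)

theorem sqrt3_lo : (1732 : ℝ) / 1000 < √3 := by
  rw [Real.lt_sqrt (by norm_num)]; norm_num

theorem sqrt3_hi : √3 < (1733 : ℝ) / 1000 := by
  rw [Real.sqrt_lt' (by norm_num)]; norm_num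

theorem lam_pos : 0 < lam := by
  unfold lam; linarith [sqrt3_lo]

theorem lam_mul : lam * (1 + 2 / √3) = 1 := by
  unfold lam
  have h := sqrt3_sq
  have h3 : (√3 : ℝ) ≠ 0 := by positivity
  field_simp
  nlinarith

theorem value_eq : 3 / 4 * log (1 + 2 / √3) = -(3 / 4 * log lam) := by
  have h : (1 + 2 / √3 : ℝ) = lam⁻¹ := eq_inv_of_mul_eq_one_right lam_mul
  rw [h, log_inv]; ring

theorem lam_lt_one : lam < 1 := by
  unfold lam; linarith [sqrt3_hi]

theorem amgm3 (a b c : ℝ) (ha : 0 ≤ a) (hb : 0 ≤ b) (hc : 0 ≤ c) :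
    27 * (a * b * c) ≤ (a + b + c) ^ 3 := by
  nlinarith [mul_nonneg ha (sq_nonneg (b - c)), mul_nonneg hb (sq_nonneg (a - c)),
    mul_nonneg hc (sq_nonneg (a - b)), mul_nonneg (add_nonneg (add_nonneg ha hb) hc)
      (add_nonneg (add_nonneg (sq_nonneg (a - b)) (sq_nonneg (b - c))) (sq_nonneg (a - c)))]

theorem cube_le {a b : ℝ} (hb : 0 ≤ b) (h : a ^ 3 ≤ b ^ 3) : a ≤ b := by
  by_contra hlt
  push Not at hlt
  have := pow_lt_pow_left₀ hlt hb (n := 3) (by norm_num)
  linarith

/-- the core inequality -/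
theorem core (a0 a1 a2 a3 h r1 r2 r3 : ℝ) (_h0 : 0 ≤ a0) (h1 : 0 ≤ a1) (h2 : 0 ≤ a2)
    (h3 : 0 ≤ a3) (hh : 0 ≤ h) (hr1 : 0 ≤ r1) (hr2 : 0 ≤ r2) (hr3 : 0 ≤ r3)
    (hs : a0 + a1 + a2 + a3 + h + r1 + r2 + r3 = 1)
    (k1 : a2 * a3 ≤ h * r1) (k2 : a1 * a3 ≤ h * r2) (k3 : a1 * a2 ≤ h * r3) :
    a0 * a1 * a2 * a3 ≤ lam ^ 3 / 256 := by
  obtain ⟨g, hg0, hg⟩ : ∃ g : ℝ, 0 ≤ g ∧ g ^ 3 = a1 * a2 * a3 := by
    have hn : 0 ≤ a1 * a2 * a3 := by positivity
    refine ⟨(a1 * a2 * a3) ^ (((3 : ℕ) : ℝ)⁻¹), Real.rpow_nonneg hn _, ?_⟩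
    exact Real.rpow_inv_natCast_pow hn (by norm_num)
  have s1 : 3 * g ≤ a1 + a2 + a3 := by
    apply cube_le (by positivity)
    have := amgm3 a1 a2 a3 h1 h2 h3
    rw [← hg] at this
    nlinarith
  have s2 : 3 * g ^ 2 ≤ a2 * a3 + a1 * a3 + a1 * a2 := by
    apply cube_le (by positivity)
    have := amgm3 (a2 * a3) (a1 * a3) (a1 * a2) (by positivity) (by positivity) (by positivity)
    have e : (a2 * a3) * (a1 * a3) * (a1 * a2) = (g ^ 3) ^ 2 := by rw [hg]; ring
    rw [e] at this
    nlinarith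
  set R := r1 + r2 + r3 with hR
  have hR0 : 0 ≤ R := by positivity
  have s3 : 3 * g ^ 2 ≤ h * R := by rw [hR]; nlinarith
  have s4 : 2 * √3 * g ≤ h + R := by
    apply (sq_le_sq₀ (by positivity) (by positivity)).1
    have : (2 * √3 * g) ^ 2 = 12 * g ^ 2 := by
      have := sqrt3_sq
      ring_nf
      rw [Real.sq_sqrt (by norm_num)]
      ring
    rw [this]
    nlinarith [sq_nonneg (h - R)]
  -- y = g / lam
  set y := g / lam with hy
  have hgy : g = lam * y := by rw [hy]; field_simp [lam_pos.ne']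
  have hy0 : 0 ≤ y := div_nonneg hg0 lam_pos.le
  have s5 : a0 + 3 * y ≤ 1 := by
    have e : 3 * y = (3 + 2 * √3) * g := by
      rw [hgy]
      have hl : (3 + 2 * √3) * lam = 3 := by
        unfold lam; nlinarith [sqrt3_sq]
      rw [← mul_assoc, hl]
    rw [e]
    nlinarith
  have s6 : a0 * y ^ 3 ≤ 1 / 256 := by
    have t1 : a0 * y ^ 3 ≤ (1 - 3 * y) * y ^ 3 :=
      mul_le_mul_of_nonneg_right (by linarith) (by positivity)
    have t2 : (1 - 3 * y) * y ^ 3 = 1 / 256 - (y - 1 / 4) ^ 2 * (3 * y ^ 2 + y / 2 + 1 / 16) := by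
      ring
    have t3 : 0 ≤ (y - 1 / 4) ^ 2 * (3 * y ^ 2 + y / 2 + 1 / 16) := by positivity
    linarith
  calc a0 * a1 * a2 * a3 = a0 * g ^ 3 := by rw [hg]; ring
    _ = lam ^ 3 * (a0 * y ^ 3) := by rw [hgy]; ring
    _ ≤ lam ^ 3 * (1 / 256) := mul_le_mul_of_nonneg_left s6 (by have := lam_pos; positivity)
    _ = lam ^ 3 / 256 := by ring

theorem mix_prod_le (α β x1 x2 x3 y1 y2 y3 : ℝ) (hα : 0 < α) (hβ : 0 < β) (hx1 : 0 < x1)
    (hx2 : 0 < x2) (hx3 : 0 < x3) (hy1 : 0 < y1) (hy2 : 0 < y2) (hy3 : 0 < y3)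
    (hs : (α + β) + (α * x1 + β * y1) + (α * x2 + β * y2) + (α * x3 + β * y3)
      + (α * (x2 * x3) + β * (y2 * y3)) + (α * (x1 * x3) + β * (y1 * y3))
      + (α * (x1 * x2) + β * (y1 * y2)) + (α * (x1 * x2 * x3) + β * (y1 * y2 * y3)) = 1) :
    (α + β) * (α * (x2 * x3) + β * (y2 * y3)) * (α * (x1 * x3) + β * (y1 * y3))
      * (α * (x1 * x2) + β * (y1 * y2)) ≤ lam ^ 3 / 256 := by
  set q000 := α + β with h000
  set q100 := α * x1 + β * y1 with h100
  set q010 := α * x2 + β * y2 with h010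
  set q001 := α * x3 + β * y3 with h001
  set q011 := α * (x2 * x3) + β * (y2 * y3) with h011
  set q101 := α * (x1 * x3) + β * (y1 * y3) with h101
  set q110 := α * (x1 * x2) + β * (y1 * y2) with h110
  set q111 := α * (x1 * x2 * x3) + β * (y1 * y2 * y3) with h111
  have n000 : 0 ≤ q000 := by positivity
  have n100 : 0 ≤ q100 := by positivity
  have n010 : 0 ≤ q010 := by positivity
  have n001 : 0 ≤ q001 := by positivity
  have n011 : 0 ≤ q011 := by positivity
  have n101 : 0 ≤ q101 := by positivity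
  have n110 : 0 ≤ q110 := by positivity
  have n111 : 0 ≤ q111 := by positivity
  have f1 : q111 * q100 - q101 * q110 = (α * β * x1 * y1) * ((x2 - y2) * (x3 - y3)) := by
    rw [h111, h100, h101, h110]; ring
  have f2 : q111 * q010 - q011 * q110 = (α * β * x2 * y2) * ((x1 - y1) * (x3 - y3)) := by
    rw [h111, h010, h011, h110]; ring
  have f3 : q111 * q001 - q011 * q101 = (α * β * x3 * y3) * ((x1 - y1) * (x2 - y2)) := by
    rw [h111, h001, h011, h101]; ring
  have g1 : q000 * q011 - q001 * q010 = (α * β) * ((x2 - y2) * (x3 - y3)) := by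
    rw [h000, h001, h010, h011]; ring
  have g2 : q000 * q101 - q001 * q100 = (α * β) * ((x1 - y1) * (x3 - y3)) := by
    rw [h000, h001, h100, h101]; ring
  have g3 : q000 * q110 - q010 * q100 = (α * β) * ((x1 - y1) * (x2 - y2)) := by
    rw [h000, h010, h100, h110]; ring
  have c0 : 0 ≤ α * β := by positivity
  have c1 : 0 ≤ α * β * x1 * y1 := by positivity
  have c2 : 0 ≤ α * β * x2 * y2 := by positivity
  have c3 : 0 ≤ α * β * x3 * y3 := by positivity
  clear_value q000 q100 q010 q001 q011 q101 q110 q111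
  have caseA : 0 ≤ (x2 - y2) * (x3 - y3) → 0 ≤ (x1 - y1) * (x3 - y3) →
      0 ≤ (x1 - y1) * (x2 - y2) → q000 * q011 * q101 * q110 ≤ lam ^ 3 / 256 := by
    intro d1 d2 d3
    exact core q000 q011 q101 q110 q111 q100 q010 q001 n000 n011 n101 n110 n111 n100 n010 n001
      (by linarith) (by linarith [mul_nonneg c1 d1]) (by linarith [mul_nonneg c2 d2])
      (by linarith [mul_nonneg c3 d3])
  have caseB : 0 ≤ (x2 - y2) * (x3 - y3) → (x1 - y1) * (x3 - y3) ≤ 0 →
      (x1 - y1) * (x2 - y2) ≤ 0 → q000 * q011 * q101 * q110 ≤ lam ^ 3 / 256 := by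
    intro d1 d2 d3
    have := core q011 q000 q110 q101 q100 q111 q001 q010 n011 n000 n110 n101 n100 n111 n001 n010
      (by linarith) (by linarith [mul_nonneg c1 d1])
      (by linarith [mul_nonneg c0 (neg_nonneg.2 d2)])
      (by linarith [mul_nonneg c0 (neg_nonneg.2 d3)])
    calc q000 * q011 * q101 * q110 = q011 * q000 * q110 * q101 := by ring
      _ ≤ _ := this
  have caseC : (x2 - y2) * (x3 - y3) ≤ 0 → 0 ≤ (x1 - y1) * (x3 - y3) →
      (x1 - y1) * (x2 - y2) ≤ 0 → q000 * q011 * q101 * q110 ≤ lam ^ 3 / 256 := by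
    intro d1 d2 d3
    have := core q101 q110 q000 q011 q010 q001 q111 q100 n101 n110 n000 n011 n010 n001 n111 n100
      (by linarith) (by linarith [mul_nonneg c0 (neg_nonneg.2 d1)])
      (by linarith [mul_nonneg c2 d2])
      (by linarith [mul_nonneg c0 (neg_nonneg.2 d3)])
    calc q000 * q011 * q101 * q110 = q101 * q110 * q000 * q011 := by ring
      _ ≤ _ := this
  have caseD : (x2 - y2) * (x3 - y3) ≤ 0 → (x1 - y1) * (x3 - y3) ≤ 0 →
      0 ≤ (x1 - y1) * (x2 - y2) → q000 * q011 * q101 * q110 ≤ lam ^ 3 / 256 := by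
    intro d1 d2 d3
    have := core q110 q101 q011 q000 q001 q010 q100 q111 n110 n101 n011 n000 n001 n010 n100 n111
      (by linarith) (by linarith [mul_nonneg c0 (neg_nonneg.2 d1)])
      (by linarith [mul_nonneg c0 (neg_nonneg.2 d2)])
      (by linarith [mul_nonneg c3 d3])
    calc q000 * q011 * q101 * q110 = q110 * q101 * q011 * q000 := by ring
      _ ≤ _ := this
  rcases le_total 0 (x1 - y1) with s1 | s1 <;> rcases le_total 0 (x2 - y2) with s2 | s2 <;>
    rcases le_total 0 (x3 - y3) with s3 | s3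
  · exact caseA (mul_nonneg s2 s3) (mul_nonneg s1 s3) (mul_nonneg s1 s2)
  · exact caseD (mul_nonpos_of_nonneg_of_nonpos s2 s3) (mul_nonpos_of_nonneg_of_nonpos s1 s3)
      (mul_nonneg s1 s2)
  · exact caseC (mul_nonpos_of_nonpos_of_nonneg s2 s3) (mul_nonneg s1 s3)
      (mul_nonpos_of_nonneg_of_nonpos s1 s2)
  · exact caseB (mul_nonneg_of_nonpos_of_nonpos s2 s3) (mul_nonpos_of_nonneg_of_nonpos s1 s3)
      (mul_nonpos_of_nonneg_of_nonpos s1 s2)
  · exact caseB (mul_nonneg s2 s3) (mul_nonpos_of_nonpos_of_nonneg s1 s3)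
      (mul_nonpos_of_nonpos_of_nonneg s1 s2)
  · exact caseC (mul_nonpos_of_nonneg_of_nonpos s2 s3) (mul_nonneg_of_nonpos_of_nonpos s1 s3)
      (mul_nonpos_of_nonpos_of_nonneg s1 s2)
  · exact caseD (mul_nonpos_of_nonpos_of_nonneg s2 s3) (mul_nonpos_of_nonpos_of_nonneg s1 s3)
      (mul_nonneg_of_nonpos_of_nonpos s1 s2)
  · exact caseA (mul_nonneg_of_nonpos_of_nonpos s2 s3) (mul_nonneg_of_nonpos_of_nonpos s1 s3)
      (mul_nonneg_of_nonpos_of_nonpos s1 s2)

/-- the uniform distribution on the strings of even parity -/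
noncomputable def par (v : Fin 3 → Bool) : ℝ :=
  if xor (v 0) (xor (v 1) (v 2)) then 0 else 1 / 4

theorem par_mem : par ∈ stdSimplex ℝ (Fin 3 → Bool) := by
  constructor
  · intro v
    unfold par
    split_ifs <;> norm_num
  · rw [sum8]
    simp [par]
    norm_num

theorem par_lower (q : (Fin 3 → Bool) → ℝ) (hq : q ∈ rbm 3 1) :
    3 / 4 * log (1 + 2 / √3) ≤ kl par q := by
  obtain ⟨α, β, x, y, hα, hβ, hx, hy, hm, hsum⟩ := mix_of_rbm q hq
  have hpos : ∀ v, 0 < q v := fun v => by rw [hm]; exact mix_pos _ _ _ _ hα hβ hx hy v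
  have hprod := mix_prod_le α β (x 0) (x 1) (x 2) (y 0) (y 1) (y 2) hα hβ (hx 0) (hx 1) (hx 2)
    (hy 0) (hy 1) (hy 2) (by
      rw [sum8] at hsum
      simp only [hm] at hsum
      simp [mix, pr, Fin.prod_univ_three] at hsum
      linarith)
  have hprod' : q ![false, false, false] * q ![false, true, true] * q ![true, false, true]
      * q ![true, true, false] ≤ lam ^ 3 / 256 := by
    simp only [hm]
    simp [mix, pr, Fin.prod_univ_three]
    simpa using hprod
  have hkl : kl par q = 1 / 4 * log (1 / 4 / q ![false, false, false])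
      + 1 / 4 * log (1 / 4 / q ![false, true, true]) + 1 / 4 * log (1 / 4 / q ![true, false, true])
      + 1 / 4 * log (1 / 4 / q ![true, true, false]) := by
    unfold kl
    rw [sum8]
    simp [par]
  have p0 := hpos ![false, false, false]
  have p1 := hpos ![false, true, true]
  have p2 := hpos ![true, false, true]
  have p3 := hpos ![true, true, false]
  rw [hkl, value_eq]
  rw [log_div (by norm_num) p0.ne', log_div (by norm_num) p1.ne', log_div (by norm_num) p2.ne',
    log_div (by norm_num) p3.ne']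
  have hl : log (q ![false, false, false]) + log (q ![false, true, true])
      + log (q ![true, false, true]) + log (q ![true, true, false]) ≤ 3 * log lam - log 256 := by
    rw [← log_mul p0.ne' p1.ne', ← log_mul (by positivity) p2.ne',
      ← log_mul (by positivity) p3.ne']
    have e : 3 * log lam - log 256 = log (lam ^ 3 / 256) := by
      rw [log_div (by have := lam_pos; positivity) (by norm_num), log_pow]; norm_num
    rw [e]
    exact log_le_log (by positivity) hprod'
  have h256 : log (256 : ℝ) = -4 * log (1 / 4) := by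
    rw [show (256 : ℝ) = ((1 / 4 : ℝ) ^ 4)⁻¹ by norm_num, log_inv, log_pow]; norm_num
  linarith

/-! ### The upper bound -/

noncomputable def pr2 (x z : Fin 3 → ℝ) (v : Fin 3 → Bool) : ℝ :=
  ∏ i, (if v i then x i else z i)

noncomputable def mix2 (α β : ℝ) (x z y w : Fin 3 → ℝ) (v : Fin 3 → Bool) : ℝ :=
  α * pr2 x z v + β * pr2 y w v

theorem pr2_eq (x z : Fin 3 → ℝ) (hz : ∀ i, 0 < z i) (v : Fin 3 → Bool) :
    pr2 x z v = (∏ i, z i) * pr (fun i => x i / z i) v := by
  unfold pr2 pr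
  rw [← Finset.prod_mul_distrib]
  apply Finset.prod_congr rfl
  intro i _
  have := (hz i).ne'
  split_ifs
  · field_simp
  · simp

theorem pr2_pos (x z : Fin 3 → ℝ) (hx : ∀ i, 0 < x i) (hz : ∀ i, 0 < z i) (v : Fin 3 → Bool) :
    0 < pr2 x z v := by
  unfold pr2
  apply Finset.prod_pos
  intro i _
  split_ifs
  · exact hx i
  · exact hz i

theorem pr2_nonneg (x z : Fin 3 → ℝ) (hx : ∀ i, 0 ≤ x i) (hz : ∀ i, 0 ≤ z i)
    (v : Fin 3 → Bool) : 0 ≤ pr2 x z v := by
  unfold pr2
  apply Finset.prod_nonneg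
  intro i _
  split_ifs
  · exact hx i
  · exact hz i

theorem pr2_mono (x z x' z' : Fin 3 → ℝ) (hx : ∀ i, 0 ≤ x i) (hz : ∀ i, 0 ≤ z i)
    (hxx : ∀ i, x i ≤ x' i) (hzz : ∀ i, z i ≤ z' i)
    (v : Fin 3 → Bool) : pr2 x z v ≤ pr2 x' z' v := by
  unfold pr2
  apply Finset.prod_le_prod
  · intro i _
    split_ifs
    · exact hx i
    · exact hz i
  · intro i _
    split_ifs
    · exact hxx i
    · exact hzz i

theorem rbm_norm2 (α β : ℝ) (x z y w : Fin 3 → ℝ) (hα : 0 < α) (hβ : 0 < β)
    (hx : ∀ i, 0 < x i) (hz : ∀ i, 0 < z i) (hy : ∀ i, 0 < y i) (hw : ∀ i, 0 < w i) :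
    (fun v => mix2 α β x z y w v / ∑ u, mix2 α β x z y w u) ∈ rbm 3 1 := by
  have h : ∀ v, mix2 α β x z y w v = mix (α * ∏ i, z i) (β * ∏ i, w i) (fun i => x i / z i)
      (fun i => y i / w i) v := by
    intro v
    unfold mix2 mix
    rw [pr2_eq x z hz, pr2_eq y w hw]
    ring
  simp only [h]
  exact rbm_norm _ _ _ _ (mul_pos hα (Finset.prod_pos fun i _ => hz i))
    (mul_pos hβ (Finset.prod_pos fun i _ => hw i)) (fun i => div_pos (hx i) (hz i))
    (fun i => div_pos (hy i) (hw i))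

def Good (p : (Fin 3 → Bool) → ℝ) : Prop :=
  ∃ (c : (Fin 3 → Bool) → ℝ) (α β : ℝ) (x z y w : Fin 3 → ℝ), (∀ v, 0 < c v) ∧ 0 ≤ α ∧ 0 ≤ β ∧
    (∀ i, 0 ≤ x i) ∧ (∀ i, 0 ≤ z i) ∧ (∀ i, 0 ≤ y i) ∧ (∀ i, 0 ≤ w i) ∧
    (∀ v, c v * p v ≤ mix2 α β x z y w v) ∧ ∑ v, mix2 α β x z y w v ≤ 1 ∧
    -∑ v, p v * log (c v) ≤ 3 / 4 * log (1 + 2 / √3)

theorem pr2_flip (x z : Fin 3 → ℝ) (s v : Fin 3 → Bool) :
    pr2 (fun i => if s i then z i else x i) (fun i => if s i then x i else z i) v
      = pr2 x z (fun i => xor (v i) (s i)) := by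
  unfold pr2
  apply Finset.prod_congr rfl
  intro i _
  cases hv : v i <;> cases hs : s i <;> simp [hv, hs]

def flipE (s : Fin 3 → Bool) : (Fin 3 → Bool) ≃ (Fin 3 → Bool) where
  toFun v := fun i => xor (v i) (s i)
  invFun v := fun i => xor (v i) (s i)
  left_inv v := by funext i; simp
  right_inv v := by funext i; simp

theorem good_flip (p : (Fin 3 → Bool) → ℝ) (s : Fin 3 → Bool)
    (h : Good (fun v => p (flipE s v))) : Good p := by
  obtain ⟨c, α, β, x, z, y, w, hc, hα, hβ, hx, hz, hy, hw, hle, hsum, hk⟩ := h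
  have hm : ∀ v, mix2 α β (fun i => if s i then z i else x i) (fun i => if s i then x i else z i)
      (fun i => if s i then w i else y i) (fun i => if s i then y i else w i) v
      = mix2 α β x z y w (flipE s v) := by
    intro v
    unfold mix2
    rw [pr2_flip, pr2_flip]
    rfl
  have hinv : ∀ v, flipE s (flipE s v) = v := fun v => (flipE s).left_inv v
  refine ⟨fun v => c (flipE s v), α, β, fun i => if s i then z i else x i,
    fun i => if s i then x i else z i, fun i => if s i then w i else y i,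
    fun i => if s i then y i else w i, fun v => hc _, hα, hβ, ?_, ?_, ?_, ?_, ?_, ?_, ?_⟩
  · intro i; dsimp only; split_ifs; exacts [hz i, hx i]
  · intro i; dsimp only; split_ifs; exacts [hx i, hz i]
  · intro i; dsimp only; split_ifs; exacts [hw i, hy i]
  · intro i; dsimp only; split_ifs; exacts [hy i, hw i]
  · intro v
    rw [hm]
    have := hle (flipE s v)
    simpa only [hinv] using this
  · simp only [hm]
    rw [(flipE s).sum_comp (fun v => mix2 α β x z y w v)]
    exact hsum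
  · have e : ∑ v, p v * log (c (flipE s v)) = ∑ v, p (flipE s v) * log (c v) := by
      rw [← (flipE s).sum_comp (fun v => p v * log (c (flipE s v)))]
      simp only [hinv]
    rw [e]
    exact hk

theorem good_inf (p : (Fin 3 → Bool) → ℝ) (hp : p ∈ stdSimplex ℝ (Fin 3 → Bool)) (hg : Good p)
    (d : ℝ) (hd : d ∈ lowerBounds {t | ∃ q ∈ rbm 3 1, t = kl p q}) :
    d ≤ 3 / 4 * log (1 + 2 / √3) := by
  obtain ⟨c, α, β, x, z, y, w, hc, hα, hβ, hx, hz, hy, hw, hle, hsum, hk⟩ := hg
  set κ := 3 / 4 * log (1 + 2 / √3) with hκ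
  set Q : ℝ → (Fin 3 → Bool) → ℝ := fun ε v => mix2 (α + ε) (β + ε) (fun i => x i + ε)
    (fun i => z i + ε) (fun i => y i + ε) (fun i => w i + ε) v with hQ
  have hQ0 : ∀ v, Q 0 v = mix2 α β x z y w v := by intro v; simp [hQ]
  have hcont : Continuous (fun ε => ∑ v, Q ε v) := by
    apply continuous_finsetSum
    intro v _
    simp only [hQ, mix2, pr2]
    apply Continuous.add
    · apply Continuous.mul (by fun_prop)
      apply continuous_finsetProd
      intro i _
      split_ifs <;> fun_prop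
    · apply Continuous.mul (by fun_prop)
      apply continuous_finsetProd
      intro i _
      split_ifs <;> fun_prop
  have hnn : ∀ v, 0 ≤ Q 0 v := by
    intro v
    rw [hQ0]
    unfold mix2
    have := pr2_nonneg x z hx hz v
    have := pr2_nonneg y w hy hw v
    positivity
  have hZ0 : 0 < ∑ v, Q 0 v := by
    obtain ⟨v0, hv0⟩ : ∃ v, 0 < p v := by
      by_contra hcon
      push Not at hcon
      have : ∑ v, p v ≤ 0 := Finset.sum_nonpos fun v _ => hcon v
      rw [hp.2] at this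
      linarith
    apply Finset.sum_pos' (fun v _ => hnn v)
    refine ⟨v0, Finset.mem_univ _, ?_⟩
    rw [hQ0]
    exact lt_of_lt_of_le (mul_pos (hc v0) hv0) (hle v0)
  have hstep : ∀ ε : ℝ, 0 < ε → d ≤ κ + log (∑ v, Q ε v) := by
    intro ε hε
    have hα' : 0 < α + ε := by positivity
    have hβ' : 0 < β + ε := by positivity
    have hx' : ∀ i, 0 < x i + ε := fun i => by have := hx i; positivity
    have hz' : ∀ i, 0 < z i + ε := fun i => by have := hz i; positivity
    have hy' : ∀ i, 0 < y i + ε := fun i => by have := hy i; positivity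
    have hw' : ∀ i, 0 < w i + ε := fun i => by have := hw i; positivity
    have hmem := rbm_norm2 (α + ε) (β + ε) (fun i => x i + ε) (fun i => z i + ε)
      (fun i => y i + ε) (fun i => w i + ε) hα' hβ' hx' hz' hy' hw'
    have hQpos : ∀ v, 0 < Q ε v := by
      intro v
      simp only [hQ, mix2]
      exact add_pos (mul_pos hα' (pr2_pos _ _ hx' hz' v)) (mul_pos hβ' (pr2_pos _ _ hy' hw' v))
    have hZpos : 0 < ∑ v, Q ε v := Finset.sum_pos (fun v _ => hQpos v) Finset.univ_nonempty
    have hQle : ∀ v, c v * p v ≤ Q ε v := by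
      intro v
      refine (hle v).trans ?_
      simp only [hQ, mix2]
      apply add_le_add
      · apply mul_le_mul (by linarith) _ (pr2_nonneg x z hx hz v) hα'.le
        exact pr2_mono x z _ _ hx hz (fun i => by linarith) (fun i => by linarith) v
      · apply mul_le_mul (by linarith) _ (pr2_nonneg y w hy hw v) hβ'.le
        exact pr2_mono y w _ _ hy hw (fun i => by linarith) (fun i => by linarith) v
    have h1 := hd ⟨_, hmem, rfl⟩
    refine h1.trans ?_
    have h2 : kl p (fun v => Q ε v / ∑ u, Q ε u)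
        ≤ ∑ v, p v * (log (∑ v, Q ε v) - log (c v)) := by
      unfold kl
      apply Finset.sum_le_sum
      intro v _
      rcases (hp.1 v).eq_or_lt with h0 | h0
      · rw [← h0]; simp
      · apply mul_le_mul_of_nonneg_left _ h0.le
        rw [← log_div hZpos.ne' (hc v).ne']
        apply log_le_log
        · have := hQpos v
          positivity
        · have hq := hQpos v
          have hc' := hc v
          rw [div_div_eq_mul_div, div_le_div_iff₀ hq hc']
          nlinarith [mul_le_mul_of_nonneg_left (hQle v) hZpos.le]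
    have h3 : ∑ v, p v * (log (∑ v, Q ε v) - log (c v))
        = log (∑ v, Q ε v) + -∑ v, p v * log (c v) := by
      simp only [mul_sub, Finset.sum_sub_distrib]
      rw [← Finset.sum_mul, hp.2]
      ring
    calc _ ≤ ∑ v, p v * (log (∑ v, Q ε v) - log (c v)) := h2
      _ = _ := h3
      _ ≤ _ := by linarith
  have htend : Filter.Tendsto (fun ε => κ + log (∑ v, Q ε v)) (nhdsWithin 0 (Set.Ioi 0))
      (nhds (κ + log (∑ v, Q 0 v))) := by
    apply Filter.Tendsto.mono_left _ nhdsWithin_le_nhds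
    apply Filter.Tendsto.const_add
    apply Filter.Tendsto.log _ hZ0.ne'
    exact hcont.tendsto 0
  have hlim : d ≤ κ + log (∑ v, Q 0 v) :=
    ge_of_tendsto htend (eventually_nhdsWithin_of_forall fun ε hε => hstep ε hε)
  have hlog : log (∑ v, Q 0 v) ≤ 0 := by
    apply log_nonpos hZ0.le
    simp only [hQ0]
    exact hsum
  linarith

theorem second (b1 b2 b3 u p7 : ℝ) (hb1 : 0 ≤ b1) (hb2 : 0 ≤ b2) (hb3 : 0 ≤ b3) (hu : 0 ≤ u)
    (hp : 0 ≤ p7) (hs : b1 + b2 + b3 = √3 * u) :
    ∃ w1 w2 w3 : ℝ, 0 ≤ w1 ∧ 0 ≤ w2 ∧ 0 ≤ w3 ∧ (u + p7) * w1 = b1 ∧ (u + p7) * w2 = b2 ∧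
      (u + p7) * w3 = b3 ∧ (u + p7) * (w1 * w2 + w1 * w3 + w2 * w3) ≤ u ∧
      (u + p7) * (w1 * w2 * w3) ≤ √3 / 9 * u := by
  have h3 := sqrt3_sq
  have h30 : 0 < √3 := by positivity
  rcases (add_nonneg hu hp).eq_or_lt with h0 | h0
  · have hu0 : u = 0 := by linarith
    have e : b1 + b2 + b3 = 0 := by rw [hs, hu0]; ring
    refine ⟨0, 0, 0, le_rfl, le_rfl, le_rfl, ?_, ?_, ?_, ?_, ?_⟩
    · linarith
    · linarith
    · linarith
    · simpa using hu
    · simpa using (by positivity : 0 ≤ √3 / 9 * u)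
  · set β := u + p7 with hβ
    have hsq : b1 * b2 + b1 * b3 + b2 * b3 ≤ u ^ 2 := by
      have : (b1 + b2 + b3) ^ 2 = 3 * u ^ 2 := by rw [hs]; nlinarith
      nlinarith [sq_nonneg (b1 - b2), sq_nonneg (b1 - b3), sq_nonneg (b2 - b3)]
    have hcu : b1 * b2 * b3 ≤ √3 / 9 * u ^ 3 := by
      have h := amgm3 b1 b2 b3 hb1 hb2 hb3
      have e : (b1 + b2 + b3) ^ 3 = 3 * √3 * u ^ 3 := by
        rw [hs]
        calc (√3 * u) ^ 3 = (√3 * √3) * √3 * u ^ 3 := by ring
          _ = _ := by rw [h3]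
      linarith
    have hub : u ≤ β := by linarith
    refine ⟨b1 / β, b2 / β, b3 / β, by positivity, by positivity, by positivity, ?_, ?_, ?_, ?_, ?_⟩
    · field_simp
    · field_simp
    · field_simp
    · have e : β * (b1 / β * (b2 / β) + b1 / β * (b3 / β) + b2 / β * (b3 / β))
          = (b1 * b2 + b1 * b3 + b2 * b3) / β := by field_simp
      rw [e, div_le_iff₀ h0]
      nlinarith
    · have e : β * (b1 / β * (b2 / β) * (b3 / β)) = b1 * b2 * b3 / β ^ 2 := by field_simp
      rw [e, div_le_iff₀ (by positivity)]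
      have : u ^ 2 ≤ β ^ 2 := pow_le_pow_left₀ hu hub 2
      calc b1 * b2 * b3 ≤ √3 / 9 * u ^ 3 := hcu
        _ = √3 / 9 * u * u ^ 2 := by ring
        _ ≤ √3 / 9 * u * β ^ 2 := mul_le_mul_of_nonneg_left this (by positivity)

theorem first (c1 c2 c3 v α : ℝ) (hc1 : 0 ≤ c1) (hc2 : 0 ≤ c2) (hc3 : 0 ≤ c3) (hv : 0 ≤ v)
    (hα : 0 < α) (hva : 7 / 5 * v ≤ α) (hs : c1 + c2 + c3 = √3 * v) :
    ∃ x1 x2 x3 : ℝ, 0 ≤ x1 ∧ 0 ≤ x2 ∧ 0 ≤ x3 ∧ α * x1 = c1 ∧ α * x2 = c2 ∧
      α * x3 = c3 ∧ α * (x1 * x2 + x1 * x3 + x2 * x3) + α * (x1 * x2 * x3) ≤ v := by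
  have h3 := sqrt3_sq
  have h30 : 0 < √3 := by positivity
  have h31 := sqrt3_hi
  have hsq : c1 * c2 + c1 * c3 + c2 * c3 ≤ v ^ 2 := by
    have : (c1 + c2 + c3) ^ 2 = 3 * v ^ 2 := by rw [hs]; nlinarith
    nlinarith [sq_nonneg (c1 - c2), sq_nonneg (c1 - c3), sq_nonneg (c2 - c3)]
  have hcu : c1 * c2 * c3 ≤ √3 / 9 * v ^ 3 := by
    have h := amgm3 c1 c2 c3 hc1 hc2 hc3
    have e : (c1 + c2 + c3) ^ 3 = 3 * √3 * v ^ 3 := by
      rw [hs]
      calc (√3 * v) ^ 3 = (√3 * √3) * √3 * v ^ 3 := by ring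
        _ = _ := by rw [h3]
    linarith
  refine ⟨c1 / α, c2 / α, c3 / α, by positivity, by positivity, by positivity, ?_, ?_, ?_, ?_⟩
  · field_simp
  · field_simp
  · field_simp
  · have e1 : α * (c1 / α * (c2 / α) + c1 / α * (c3 / α) + c2 / α * (c3 / α))
        = (c1 * c2 + c1 * c3 + c2 * c3) / α := by field_simp
    have e2 : α * (c1 / α * (c2 / α) * (c3 / α)) = c1 * c2 * c3 / α ^ 2 := by field_simp
    rw [e1, e2]
    have z0 : 0 ≤ v / α := by positivity
    have z1 : v / α ≤ 5 / 7 := by rw [div_le_iff₀ hα]; linarith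
    have b1 : (c1 * c2 + c1 * c3 + c2 * c3) / α ≤ v * (v / α) := by
      rw [div_le_iff₀ hα]
      calc _ ≤ v ^ 2 := hsq
        _ = _ := by field_simp
    have b2 : c1 * c2 * c3 / α ^ 2 ≤ v * (√3 / 9 * (v / α) ^ 2) := by
      rw [div_le_iff₀ (by positivity)]
      calc _ ≤ √3 / 9 * v ^ 3 := hcu
        _ = _ := by field_simp
    have b3 : (v / α) ^ 2 ≤ (5 / 7) ^ 2 := pow_le_pow_left₀ z0 z1 2
    have b4 : √3 / 9 * (v / α) ^ 2 ≤ √3 / 9 * (5 / 7) ^ 2 :=
      mul_le_mul_of_nonneg_left b3 (by positivity)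
    have b5 : v * (v / α) + v * (√3 / 9 * (v / α) ^ 2) ≤ v * 1 := by
      rw [← mul_add]
      apply mul_le_mul_of_nonneg_left _ hv
      linarith
    linarith

theorem good_core (P : (Fin 3 → Bool) → ℝ) (hP : P ∈ stdSimplex ℝ (Fin 3 → Bool))
    (h1 : 1 / 4 ≤ P ![false, false, false] + P ![true, true, true])
    (h2 : P ![true, true, true] ≤ P ![false, false, false]) : Good P := by
  have hs := hP.2
  rw [sum8] at hs
  have n0 := hP.1 ![false, false, false]
  have n7 := hP.1 ![true, true, true]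
  have no1 := hP.1 ![true, false, false]
  have no2 := hP.1 ![false, true, false]
  have no3 := hP.1 ![false, false, true]
  have ne1 := hP.1 ![false, true, true]
  have ne2 := hP.1 ![true, false, true]
  have ne3 := hP.1 ![true, true, false]
  set p0 := P ![false, false, false] with hp0
  set p7 := P ![true, true, true] with hp7
  set o1 := P ![true, false, false] with ho1
  set o2 := P ![false, true, false] with ho2
  set o3 := P ![false, false, true] with ho3
  set e1 := P ![false, true, true] with he1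
  set e2 := P ![true, false, true] with he2
  set e3 := P ![true, true, false] with he3
  have hl := lam_pos
  have hl1 : lam < 466 / 1000 := by unfold lam; linarith [sqrt3_hi]
  have h3 := sqrt3_sq
  have h30 : 0 < √3 := by positivity
  have h3lo := sqrt3_lo
  set u := lam * (e1 + e2 + e3) / √3 with hu
  set v := lam * (o1 + o2 + o3) / √3 with hv
  have hu0 : 0 ≤ u := by positivity
  have hv0 : 0 ≤ v := by positivity
  have hu1 : √3 * u = lam * (e1 + e2 + e3) := by rw [hu]; field_simp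
  have hv1 : √3 * v = lam * (o1 + o2 + o3) := by rw [hv]; field_simp
  obtain ⟨w1, w2, w3, hw1, hw2, hw3, kw1, kw2, kw3, kww, kwww⟩ := second (lam * e1) (lam * e2)
    (lam * e3) u p7 (by positivity) (by positivity) (by positivity) hu0 n7 (by rw [hu1]; ring)
  set α := v + p0 - (u + p7) * (w1 * w2 * w3) with hα
  have hv2 : 1732 / 1000 * v ≤ 466 / 1000 * (o1 + o2 + o3) := by
    have : lam * (o1 + o2 + o3) ≤ 466 / 1000 * (o1 + o2 + o3) :=
      mul_le_mul_of_nonneg_right hl1.le (by positivity)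
    have : 1732 / 1000 * v ≤ √3 * v := mul_le_mul_of_nonneg_right h3lo.le hv0
    linarith
  have hu2 : √3 / 9 * u ≤ 466 / 9000 * (e1 + e2 + e3) := by
    have : lam * (e1 + e2 + e3) ≤ 466 / 1000 * (e1 + e2 + e3) :=
      mul_le_mul_of_nonneg_right hl1.le (by positivity)
    linarith
  have hα1 : 7 / 5 * v ≤ α := by linarith
  have hα0 : 0 < α := by linarith
  obtain ⟨x1, x2, x3, hx1, hx2, hx3, kx1, kx2, kx3, kxx⟩ := first (lam * o1) (lam * o2)
    (lam * o3) v α (by positivity) (by positivity) (by positivity) hv0 hα0 hα1 (by rw [hv1]; ring)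
  set β := u + p7 with hβ
  have hβ0 : 0 ≤ β := by positivity
  have pw12 : 0 ≤ β * (w1 * w2) := by positivity
  have pw13 : 0 ≤ β * (w1 * w3) := by positivity
  have pw23 : 0 ≤ β * (w2 * w3) := by positivity
  have px12 : 0 ≤ α * (x1 * x2) := by positivity
  have px13 : 0 ≤ α * (x1 * x3) := by positivity
  have px23 : 0 ≤ α * (x2 * x3) := by positivity
  have px123 : 0 ≤ α * (x1 * x2 * x3) := by positivity
  refine ⟨fun t => if t 0 = t 1 ∧ t 1 = t 2 then 1 else lam, α, β, ![x1, x2, x3], ![1, 1, 1],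
    ![1, 1, 1], ![w1, w2, w3], ?_, hα0.le, hβ0, ?_, ?_, ?_, ?_, ?_, ?_, ?_⟩
  · intro t; dsimp only; split_ifs; exacts [one_pos, hl]
  · intro i; fin_cases i; exacts [hx1, hx2, hx3]
  · intro i; fin_cases i <;> simp
  · intro i; fin_cases i <;> simp
  · intro i; fin_cases i; exacts [hw1, hw2, hw3]
  · apply forall8 <;> simp [mix2, pr2, Fin.prod_univ_three]
    · linarith
    · linarith
    · linarith
    · linarith
    · linarith
    · linarith
    · linarith
    · linarith
  · rw [sum8]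
    simp [mix2, pr2, Fin.prod_univ_three]
    have key : (2 + √3) * (u + v) = e1 + e2 + e3 + (o1 + o2 + o3) := by
      have e : (2 + √3) * lam = √3 := by unfold lam; linear_combination 2 * h3
      have : √3 * ((2 + √3) * (u + v)) = √3 * (e1 + e2 + e3 + (o1 + o2 + o3)) := by
        calc √3 * ((2 + √3) * (u + v)) = (2 + √3) * (√3 * u + √3 * v) := by ring
          _ = ((2 + √3) * lam) * (e1 + e2 + e3 + (o1 + o2 + o3)) := by rw [hu1, hv1]; ring
          _ = _ := by rw [e]
      exact mul_left_cancel₀ h30.ne' this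
    clear_value u v
    clear hl hl1 h3lo hu hv hv2 hu2 hα1 hα0 pw12 pw13 pw23 px12 px13 px23 px123 no1 no2 no3 ne1 ne2
      ne3 n0 n7 hw1 hw2 hw3 hx1 hx2 hx3 hu0 hv0 hβ0 h1 h2
    linarith
  · rw [sum8, value_eq]
    simp
    have hlog : log lam < 0 := log_neg hl lam_lt_one
    have hM : 0 ≤ 3 / 4 - (e1 + e2 + e3 + (o1 + o2 + o3)) := by linarith
    have hML := mul_nonneg hM (neg_nonneg.2 hlog.le)
    clear_value u v
    clear hl hl1 h3lo hu hv hv2 hu2 hα1 hα0 pw12 pw13 pw23 px12 px13 px23 px123 no1 no2 no3 ne1 ne2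
      ne3 n0 n7 hw1 hw2 hw3 hx1 hx2 hx3 hu0 hv0 hβ0 h1 h2 kxx kww kwww kx1 kx2 kx3 kw1 kw2 kw3 hα hβ
    linarith

/-- every distribution is good -/
theorem good_all (p : (Fin 3 → Bool) → ℝ) (hp : p ∈ stdSimplex ℝ (Fin 3 → Bool)) : Good p := by
  have hs := hp.2
  rw [sum8] at hs
  have key : ∀ s : Fin 3 → Bool, 1 / 4 ≤ p s + p (fun i => !(s i)) →
      p (fun i => !(s i)) ≤ p s → Good p := by
    intro s h1 h2
    apply good_flip p s
    have e0 : flipE s ![false, false, false] = s := by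
      funext i; fin_cases i <;> simp [flipE]
    have e7 : flipE s ![true, true, true] = fun i => !(s i) := by
      funext i; fin_cases i <;> simp [flipE]
    apply good_core
    · constructor
      · intro v; exact hp.1 _
      · rw [(flipE s).sum_comp p]; exact hp.2
    · simp only [e0, e7]; exact h1
    · simp only [e0, e7]; exact h2
  have key2 : ∀ s : Fin 3 → Bool, 1 / 4 ≤ p s + p (fun i => !(s i)) → Good p := by
    intro s h1
    rcases le_total (p (fun i => !(s i))) (p s) with h | h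
    · exact key s h1 h
    · apply key (fun i => !(s i))
      · simp only [Bool.not_not]; linarith
      · simpa only [Bool.not_not] using h
  by_contra hcon
  have g : ∀ s : Fin 3 → Bool, p s + p (fun i => !(s i)) < 1 / 4 := by
    intro s
    by_contra h
    exact hcon (key2 s (not_lt.1 h))
  have g0 := g ![false, false, false]
  have g1 := g ![true, false, false]
  have g2 := g ![false, true, false]
  have g3 := g ![false, false, true]
  have r0 : (fun i => !((![false, false, false] : Fin 3 → Bool) i)) = ![true, true, true] := by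
    funext i; fin_cases i <;> rfl
  have r1 : (fun i => !((![true, false, false] : Fin 3 → Bool) i)) = ![false, true, true] := by
    funext i; fin_cases i <;> rfl
  have r2 : (fun i => !((![false, true, false] : Fin 3 → Bool) i)) = ![true, false, true] := by
    funext i; fin_cases i <;> rfl
  have r3 : (fun i => !((![false, false, true] : Fin 3 → Bool) i)) = ![true, true, false] := by
    funext i; fin_cases i <;> rfl
  rw [r0] at g0
  rw [r1] at g1
  rw [r2] at g2
  rw [r3] at g3
  linarith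

/-! ### The result -/

theorem kl_nonneg {n : ℕ} (p : (Fin n → Bool) → ℝ) (hp : p ∈ stdSimplex ℝ (Fin n → Bool))
    (q : (Fin n → Bool) → ℝ) (hq : ∀ v, 0 < q v) (hs : ∑ v, q v = 1) : 0 ≤ kl p q := by
  have h : ∀ v, p v - q v ≤ p v * log (p v / q v) := by
    intro v
    rcases (hp.1 v).eq_or_lt with h0 | h0
    · rw [← h0]; have := hq v; simp; linarith
    · have h1 := Real.one_sub_inv_le_log_of_pos (div_pos h0 (hq v))
      have h2 := mul_le_mul_of_nonneg_left h1 h0.le
      have h3 : p v * (1 - (p v / q v)⁻¹) = p v - q v := by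
        have := h0.ne'
        rw [inv_div]; field_simp
      linarith
  calc (0 : ℝ) = ∑ v, (p v - q v) := by rw [Finset.sum_sub_distrib, hp.2, hs]; ring
    _ ≤ _ := Finset.sum_le_sum fun v _ => h v

theorem isGLB_inf (p : (Fin 3 → Bool) → ℝ) (hp : p ∈ stdSimplex ℝ (Fin 3 → Bool)) :
    IsGLB {t | ∃ q ∈ rbm 3 1, t = kl p q} (sInf {t | ∃ q ∈ rbm 3 1, t = kl p q}) := by
  apply isGLB_csInf
  · exact ⟨_, _, rbm_norm 1 1 (fun _ => 1) (fun _ => 1) one_pos one_pos (fun _ => one_pos)
      (fun _ => one_pos), rfl⟩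
  · refine ⟨0, ?_⟩
    rintro t ⟨q, hq, rfl⟩
    obtain ⟨α, β, x, y, hα, hβ, hx, hy, hm, hsum⟩ := mix_of_rbm q hq
    exact kl_nonneg p hp q (fun v => by rw [hm]; exact mix_pos _ _ _ _ hα hβ hx hy v) hsum

/-- **The maximum divergence from the restricted Boltzmann machine with three visible and one
hidden unit is `(3/4) log (1 + 2/√3)`**; it is attained. -/
theorem result :
    IsGreatest {d : ℝ | ∃ p ∈ stdSimplex ℝ (Fin 3 → Bool),
      IsGLB {t | ∃ q ∈ rbm 3 1, t = kl p q} d} (3 / 4 * log (1 + 2 / √3)) ∧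
    maxDiv 3 1 = 3 / 4 * log (1 + 2 / √3) := by
  have hpar : IsGLB {t | ∃ q ∈ rbm 3 1, t = kl par q} (3 / 4 * log (1 + 2 / √3)) := by
    constructor
    · rintro t ⟨q, hq, rfl⟩
      exact par_lower q hq
    · intro d hd
      exact good_inf par par_mem (good_all par par_mem) d hd
  constructor
  · refine ⟨⟨par, par_mem, hpar⟩, ?_⟩
    rintro d ⟨p, hp, hd⟩
    exact good_inf p hp (good_all p hp) d hd.1
  · unfold maxDiv
    apply IsGreatest.csSup_eq
    constructor
    · exact ⟨par, par_mem, hpar.unique (isGLB_inf par par_mem)⟩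
    · rintro d ⟨p, hp, rfl⟩
      exact good_inf p hp (good_all p hp) _ (isGLB_inf p hp).1

end Pool.Agent.Results.MP_dd6cbd_pr.ExactValue
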